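import Pool.Agent.Y686.CW.Main
import Pool.Agent.Helper228.CkInt.T

open scoped ENNReal Topology
open MeasureTheory Filter Set
open Pool.Agent.Helper228.CkInt Pool.Agent.Y686.CW

namespace Pool.Agent.Results.MP_935800_an.WeightedIntegration

/-- Weighted `C^k` integration on local John domains: the asymptotic constant, and domain
independence. -/
theorem result (d k : ℕ) (hd : 1 ≤ d) (hk : 1 ≤ k) :
    (∃ C : ℝ, 0 < C ∧
      (∀ D : Set (Fin d → ℝ), JordanDomain D → LocalJohn D →
        ∀ ρ : (Fin d → ℝ) → ℝ, IntegrableOn ρ D →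
          Tendsto (scaledErrorW k D ρ) atTop (𝓝 (C * wfun k D ρ))) ∧
      (∀ D : Set (Fin d → ℝ), JordanDomain D → LocalJohn D →
        Tendsto (scaledError k D) atTop
          (𝓝 (C * (volume D).toReal ^ (((d : ℝ) + k) / d)))) ∧
      (∀ D : Set (Fin d → ℝ), UnitJordan D → LocalJohn D →
        Tendsto (scaledError k D) atTop (𝓝 C)) ∧
      (∀ D : Set (Fin d → ℝ), JordanDomain D → ∀ ρ : (Fin d → ℝ) → ℝ, IntegrableOn ρ D →
        ∀ c < C * wfun k D ρ, ∀ᶠ n in atTop, c < scaledErrorW k D ρ n)) ∧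
    (∃ D : Set (Fin d → ℝ), UnitJordan D ∧ IsOpen D ∧ (2 ≤ d → IsConnected D) ∧
      Tendsto (scaledError k D) atTop atTop) := by
  refine ⟨⟨C0 d k, C0_pos hd hk, fun D hD hj ρ hρ => weighted_limit hd hk hD hj hρ,
    fun D hD hj => unweighted_limit hd hk hD hj, fun D hD hj => ?_,
    fun D hD ρ hρ c hc => weighted_lower hd hk hD hρ hc⟩, ?_⟩
  · have h := unweighted_limit hd hk (jordanDomain_of_unit hD) hj
    rwa [hD.2.2, ENNReal.toReal_one, Real.one_rpow, mul_one] at h
  · rcases Nat.lt_or_ge 1 d with h2 | h2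
    · exact ⟨_, ⟨(cube_bounded d).subset (comb_sub_cube ⟨0, hd⟩ ⟨1, h2⟩ (1/(2*d))),
        comb_frontier _ _ (by positivity), comb_volume _ _ _⟩, comb_open _ _ (by positivity),
        fun _ => comb_connected (by simp) _, comb_top (by simp) hk⟩
    · exact ⟨_, ⟨(cube_bounded d).subset (fun x hx => hx.1 : slit d ⟨0, hd⟩ (1/(2*d)) ⊆ cube d),
        slit_frontier _ (by positivity), slit_volume _ _⟩, slit_open _ (by positivity),
        fun h => by omega, slit_top _ hk⟩

end Pool.Agent.Results.MP_935800_an.WeightedIntegration
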